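import Pool.Agent.TH266.UM.Cnt

/-!
# N13, CNTU: upper bound for one class of lines (written by helper713)
-/

set_option autoImplicit false

namespace Pool.Agent.TH713.UM

open Finset Pool.Agent.TH266.UM

theorem lt_hh {k H j i : ℕ} (hj : j < k) : i < hh k H j ↔ j + k * i < H := by
  unfold hh
  rw [← Nat.succ_le_iff, Nat.le_div_iff_mul_le (by omega), Nat.succ_mul, Nat.mul_comm i k]
  omega

theorem aa_eq {k : ℕ} {v : ℤ} {K lam : ℝ} (hK : (k : ℝ) * lam + v = K) (d t j i : ℕ) :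
    aa lam v k d t j i = ⌈(-(lam * ((d : ℝ) / 3 - j)) + K * t) + K * i⌉ := by
  unfold aa LL
  rw [Nat.zero_sub, Nat.cast_zero, add_zero]
  have h1 : (-(lam * ((d : ℝ) / 3 - j)) + K * t) + K * i =
      -(lam * ((d : ℝ) / 3 - ((j + k * (i + t) : ℕ) : ℝ))) + ((v * ((i + t : ℕ) : ℤ) : ℤ) : ℝ) := by
    rw [← hK]
    push_cast
    ring
  rw [h1, Int.ceil_add_intCast]

theorem bb_eq {k : ℕ} {v : ℤ} {K lam : ℝ} (hK : (k : ℝ) * lam + v = K) (d t j i : ℕ) :
    bb lam v k d j i = ⌊(-(lam * ((d : ℝ) / 3 - j)) + K * t) + (3 * d - K * t) - 9 * j +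
      (K - 9 * k) * i⌋ := by
  unfold bb UU
  have h1 : (-(lam * ((d : ℝ) / 3 - j)) + K * t) + (3 * d - K * t) - 9 * j + (K - 9 * k) * i =
      (9 - lam) * ((d : ℝ) / 3 - ((j + k * i : ℕ) : ℝ)) + ((v * (i : ℤ) : ℤ) : ℝ) := by
    rw [← hK]
    push_cast
    ring
  rw [h1, Int.floor_add_intCast]

theorem LL_eq (lam : ℝ) (v : ℤ) (k d e t j i : ℕ) :
    LL lam d e (j + k * (i + t)) + v * ((i + t : ℕ) : ℤ) =
      aa lam v k d t j i + ((e - (j + k * (i + t)) : ℕ) : ℤ) := by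
  unfold aa LL
  rw [Nat.zero_sub, Nat.cast_zero, add_zero]
  ring

theorem cntU : S_CNTU := by
  classical
  intro k v K lam hk hK hK9 d e t H Q j hj hHQ hQ1 hQ2 hE B hB
  obtain ⟨x, hx⟩ : ∃ x : ℝ, x = -(lam * ((d : ℝ) / 3 - j)) + K * t := ⟨_, rfl⟩
  obtain ⟨Y, hY⟩ : ∃ Y : ℝ, Y = 3 * d - K * t := ⟨_, rfl⟩
  have hkR : (1 : ℝ) ≤ k := by exact_mod_cast hk
  have haa : ∀ i : ℕ, aa lam v k d t j i = ⌈x + K * i⌉ := fun i => by rw [hx]; exact aa_eq hK d t j i
  have hbb : ∀ i : ℕ, bb lam v k d j i = ⌊x + Y - 9 * j + (K - 9 * k) * i⌋ := fun i => by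
    rw [hx, hY]; exact bb_eq hK d t j i
  rw [← hY] at hQ1 hQ2 hE
  obtain ⟨E, hEd⟩ : ∃ E : ℕ, E = e - k * t - j := ⟨_, rfl⟩
  obtain ⟨h0, hh0⟩ : ∃ h0 : ℕ, h0 = hh k H j := ⟨_, rfl⟩
  rw [← hEd] at hE
  have hsub : B ⊆ Icc (aa lam v k d t j 0 + (E : ℤ)) (bb lam v k d j h0) ∪
      (Ico (h0 + 1) (hh k (Q + 1) j)).biUnion fun i => Icc (aa lam v k d t j i) (bb lam v k d j i) := by
    intro z hz
    obtain ⟨i, h1, h2⟩ := hB z hz
    rw [LL_eq] at h1
    change z ≤ bb lam v k d j i at h2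
    have hi0 : (0 : ℝ) ≤ i := Nat.cast_nonneg i
    have h3 : aa lam v k d t j i ≤ z := by
      have : (0 : ℤ) ≤ ((e - (j + k * (i + t)) : ℕ) : ℤ) := Int.natCast_nonneg _
      linarith
    rw [mem_union]
    rcases Nat.lt_or_ge h0 i with hs | hs
    · right
      rw [mem_biUnion]
      refine ⟨i, ?_, ?_⟩
      · rw [mem_Ico]
        refine ⟨hs, ?_⟩
        rw [lt_hh hj]
        rw [haa] at h3
        rw [hbb] at h2
        have h4 := Int.ceil_le.1 h3
        have h5 := Int.le_floor.1 h2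
        have h6 : ((j + k * i : ℕ) : ℝ) < ((Q + 1 : ℕ) : ℝ) := by
          push_cast
          linarith
        exact_mod_cast h6
      · rw [Finset.mem_Icc]
        exact ⟨h3, h2⟩
    · left
      rw [Finset.mem_Icc]
      have hsR : (i : ℝ) ≤ h0 := by exact_mod_cast hs
      constructor
      · refine le_trans ?_ h1
        rw [haa, haa]
        have h4 : ⌈x + K * ((0 : ℕ) : ℝ)⌉ + ((k * i : ℕ) : ℤ) ≤ ⌈x + K * (i : ℝ)⌉ := by
          rw [← Int.ceil_add_natCast]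
          apply Int.ceil_le_ceil
          push_cast
          have : (k : ℝ) * i ≤ K * i := mul_le_mul_of_nonneg_right (by linarith) hi0
          linarith
        have h5 : (E : ℤ) ≤ ((e - (j + k * (i + t)) : ℕ) : ℤ) + ((k * i : ℕ) : ℤ) := by
          rw [hEd]
          have h6 : k * (i + t) = k * i + k * t := by ring
          have h7 : e - k * t - j ≤ (e - (j + k * (i + t))) + k * i := by
            rw [h6]
            omega
          exact_mod_cast h7
        linarith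
      · refine h2.trans ?_
        rw [hbb, hbb]
        apply Int.floor_le_floor
        have : (K - 9 * k) * i ≤ (K - 9 * k) * h0 := mul_le_mul_of_nonneg_left hsR (by linarith)
        linarith
  have h1 := (card_le_card hsub).trans (card_union_le _ _)
  have h2 : (((Ico (h0 + 1) (hh k (Q + 1) j)).biUnion fun i : ℕ =>
      Icc (aa lam v k d t j i) (bb lam v k d j i)).card : ℤ) ≤
      ∑ i ∈ Ico (h0 + 1) (hh k (Q + 1) j), (bb lam v k d j i + 1 - aa lam v k d t j i) := by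
    have h3 : (((Ico (h0 + 1) (hh k (Q + 1) j)).biUnion fun i : ℕ =>
        Icc (aa lam v k d t j i) (bb lam v k d j i)).card : ℤ) ≤
        ∑ i ∈ Ico (h0 + 1) (hh k (Q + 1) j),
          ((Icc (aa lam v k d t j i) (bb lam v k d j i)).card : ℤ) := by
      exact_mod_cast card_biUnion_le
    refine h3.trans (sum_le_sum fun i hi => le_of_eq ?_)
    rw [mem_Ico, lt_hh hj] at hi
    rw [haa, hbb]
    apply Pool.Agent.TH641.NW.icc_card
    have h4 : ((j + k * i : ℕ) : ℝ) ≤ Q := by exact_mod_cast (by omega : j + k * i ≤ Q)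
    push_cast at h4
    linarith
  have h3 : ((Icc (aa lam v k d t j 0 + (E : ℤ)) (bb lam v k d j h0)).card : ℤ) =
      bb lam v k d j h0 + 1 - aa lam v k d t j 0 - (E : ℤ) := by
    have h4 : aa lam v k d t j 0 + (E : ℤ) = ⌈x + (E : ℝ)⌉ := by
      rw [haa, Nat.cast_zero, mul_zero, add_zero, Int.ceil_add_natCast]
    have h5 : (x + (E : ℝ)) ≤ x + Y - 9 * j + (K - 9 * k) * h0 := by
      have h6 : (0 : ℝ) ≤ h0 := Nat.cast_nonneg h0
      have h7 : 0 ≤ (K - 9 * k) * h0 := mul_nonneg (by linarith) h6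
      linarith
    have h8 := Pool.Agent.TH641.NW.icc_card h5
    rw [h4, hbb, h8, ← h4]
    ring
  have h4 : (B.card : ℤ) ≤ ((Icc (aa lam v k d t j 0 + (E : ℤ)) (bb lam v k d j h0)).card : ℤ) +
      (((Ico (h0 + 1) (hh k (Q + 1) j)).biUnion fun i : ℕ =>
        Icc (aa lam v k d t j i) (bb lam v k d j i)).card : ℤ) := by
    exact_mod_cast h1
  unfold cntj
  rw [← hEd, ← hh0]
  linarith

end Pool.Agent.TH713.UM
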